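import Pool.Agent.Run7.h875.UC.Core2
import Pool.Agent.Run7.h74.UC.Iface

set_option autoImplicit false

/-! Piece ALG of project UC (helper74). -/

namespace Pool.Agent.Run7.h875.UC

lemma Tp_eq (p : ℕ) (w v : ℂ) (u : ℕ → ℂ) : Pool.Agent.Run7.h74.UC.Tp p w v u = Tp p w v u := rfl

lemma TL_eq (w v : ℕ → ℂ) : ∀ (L : List ℕ) (u : ℕ → ℂ), Pool.Agent.Run7.h74.UC.TL w v L u = TL w v L u
  | [], _ => rfl
  | (p :: L), u => by
      rw [Pool.Agent.Run7.h74.UC.TL, TL, TL_eq w v L u, Tp_eq]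

theorem t_ALG : Pool.Agent.Run7.h74.UC.S_ALG := by
  intro L w v hL hw u hu
  rw [TL_eq]
  exact ⟨fsTL w v L (fun q hq => (hw q hq).1) u hu, alg w v L hL hw u hu⟩

end Pool.Agent.Run7.h875.UC
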