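import Mathlib

set_option autoImplicit false

/-! Piece ALG of project UC (helper74): the norm of a product of Toeplitz operators. Mathlib only. -/

namespace Pool.Agent.Run7.h875.UC

open Complex Filter Topology

noncomputable section

def FS (u : ℕ → ℂ) : Prop := u 0 = 0 ∧ (Function.support u).Finite
def nn (u : ℕ → ℂ) : ℝ := ∑' n, ‖u n‖ ^ 2
def Sh (p : ℕ) (u : ℕ → ℂ) (n : ℕ) : ℂ := if p ∣ n then u (n / p) else 0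
def Sa (p : ℕ) (u : ℕ → ℂ) (n : ℕ) : ℂ := u (p * n)
def Tp (p : ℕ) (w v : ℂ) (u : ℕ → ℂ) (n : ℕ) : ℂ :=
  u n + I / 2 * (w * Sh p u n + (starRingEnd ℂ) w * Sa p u n) +
    I / 2 * (v * Sh p (Sh p u) n + (starRingEnd ℂ) v * Sa p (Sa p u) n) -
    1 / 8 * (w ^ 2 * Sh p (Sh p u) n + (starRingEnd ℂ) w ^ 2 * Sa p (Sa p u) n + 2 * (‖w‖ ^ 2 : ℝ) * u n)
def TL (w v : ℕ → ℂ) : List ℕ → (ℕ → ℂ) → ℕ → ℂ
  | [], u => u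
  | (p :: L), u => Tp p (w p) (v p) (TL w v L u)

lemma absT {E : Type*} [NormedAddCommGroup E] [InnerProductSpace ℂ E] (u x1 x2 y1 y2 : E) (w v : ℂ) (r q : ℝ)
    (hr : 0 ≤ r) (hr1 : r ^ 2 ≤ 1 / 2) (hw : ‖w‖ ≤ r) (hv : ‖v‖ ≤ r ^ 2 / 2)
    (h1 : ‖x1‖ = ‖u‖) (h2 : ‖x2‖ = ‖u‖) (h3 : ‖y1‖ ^ 2 = ‖u‖ ^ 2 - q) (hq : 0 ≤ q) (h4 : ‖y2‖ ≤ ‖u‖)
    (a1 : inner ℂ x1 u = inner ℂ u y1) (a2 : inner ℂ x2 u = inner ℂ u y2) (a3 : inner ℂ x2 u = inner ℂ x1 y1) :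
    ‖u + (I / 2) • (w • x1 + (starRingEnd ℂ) w • y1) + (I / 2) • (v • x2 + (starRingEnd ℂ) v • y2) -
      (1 / 8 : ℂ) • (w ^ 2 • x2 + (starRingEnd ℂ) w ^ 2 • y2 + (2 * ((‖w‖ ^ 2 : ℝ) : ℂ)) • u)‖ ^ 2 ≤
      (1 + 8 * r ^ 3) * (‖u‖ ^ 2 - ‖w‖ ^ 2 / 4 * q) := by
  set a : E := (1 / 2 : ℂ) • (w • x1 + (starRingEnd ℂ) w • y1) with ha
  set a' : E := (1 / 2 : ℂ) • (v • x2 + (starRingEnd ℂ) v • y2) with ha'
  set c : E := (1 / 8 : ℂ) • (w ^ 2 • x2 + (starRingEnd ℂ) w ^ 2 • y2 + (2 * ((‖w‖ ^ 2 : ℝ) : ℂ)) • u) with hc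
  have hn : 0 ≤ ‖u‖ := norm_nonneg u
  have hy1 : ‖y1‖ ≤ ‖u‖ := by
    have : ‖y1‖ ^ 2 ≤ ‖u‖ ^ 2 := by linarith
    exact le_of_sq_le_sq this hn
  have e0 : u + (I / 2) • (w • x1 + (starRingEnd ℂ) w • y1) + (I / 2) • (v • x2 + (starRingEnd ℂ) v • y2) - c =
      u + (I • (a + a') - c) := by
    have e1 : (I / 2) • (w • x1 + (starRingEnd ℂ) w • y1) = I • a := by
      rw [ha, smul_smul]; congr 1; ring
    have e2 : (I / 2) • (v • x2 + (starRingEnd ℂ) v • y2) = I • a' := by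
      rw [ha', smul_smul]; congr 1; ring
    rw [e1, e2, smul_add]; abel
  rw [e0]
  have nw : 0 ≤ ‖w‖ := norm_nonneg w
  have nv : 0 ≤ ‖v‖ := norm_nonneg v
  have cw : ‖(starRingEnd ℂ) w‖ = ‖w‖ := RCLike.norm_conj w
  have cv : ‖(starRingEnd ℂ) v‖ = ‖v‖ := RCLike.norm_conj v
  have k1 : ‖a‖ ≤ r * ‖u‖ := by
    have t1 : ‖w • x1 + (starRingEnd ℂ) w • y1‖ ≤ ‖w‖ * ‖x1‖ + ‖w‖ * ‖y1‖ := by
      refine (norm_add_le _ _).trans ?_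
      rw [norm_smul, norm_smul, cw]
    have t2 : ‖a‖ = 1 / 2 * ‖w • x1 + (starRingEnd ℂ) w • y1‖ := by
      rw [ha, norm_smul]; norm_num
    rw [h1] at t1
    have t3 : ‖w‖ * ‖u‖ ≤ r * ‖u‖ := mul_le_mul_of_nonneg_right hw hn
    have t4 : ‖w‖ * ‖y1‖ ≤ r * ‖u‖ := mul_le_mul hw hy1 (norm_nonneg _) hr
    rw [t2]; linarith
  have k2 : ‖a'‖ ≤ r ^ 2 / 2 * ‖u‖ := by
    have t1 : ‖v • x2 + (starRingEnd ℂ) v • y2‖ ≤ ‖v‖ * ‖x2‖ + ‖v‖ * ‖y2‖ := by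
      refine (norm_add_le _ _).trans ?_
      rw [norm_smul, norm_smul, cv]
    have t2 : ‖a'‖ = 1 / 2 * ‖v • x2 + (starRingEnd ℂ) v • y2‖ := by
      rw [ha', norm_smul]; norm_num
    rw [h2] at t1
    have t3 : ‖v‖ * ‖u‖ ≤ r ^ 2 / 2 * ‖u‖ := mul_le_mul_of_nonneg_right hv hn
    have t4 : ‖v‖ * ‖y2‖ ≤ r ^ 2 / 2 * ‖u‖ := mul_le_mul hv h4 (norm_nonneg _) (by positivity)
    rw [t2]; linarith
  have w2 : ‖w‖ ^ 2 ≤ r ^ 2 := pow_le_pow_left₀ nw hw 2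
  have k3 : ‖c‖ ≤ r ^ 2 / 2 * ‖u‖ := by
    have t1 : ‖w ^ 2 • x2 + (starRingEnd ℂ) w ^ 2 • y2 + (2 * ((‖w‖ ^ 2 : ℝ) : ℂ)) • u‖ ≤
        ‖w‖ ^ 2 * ‖x2‖ + ‖w‖ ^ 2 * ‖y2‖ + 2 * ‖w‖ ^ 2 * ‖u‖ := by
      refine (norm_add_le _ _).trans ?_
      refine add_le_add ((norm_add_le _ _).trans ?_) ?_
      · rw [norm_smul, norm_smul, norm_pow, norm_pow, cw]
      · rw [norm_smul, norm_mul, Complex.norm_real, Real.norm_of_nonneg (by positivity)]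
        norm_num
    have t2 : ‖c‖ = 1 / 8 * ‖w ^ 2 • x2 + (starRingEnd ℂ) w ^ 2 • y2 + (2 * ((‖w‖ ^ 2 : ℝ) : ℂ)) • u‖ := by
      rw [hc, norm_smul]; norm_num
    rw [h2] at t1
    have t3 : ‖w‖ ^ 2 * ‖u‖ ≤ r ^ 2 * ‖u‖ := mul_le_mul_of_nonneg_right w2 hn
    have t4 : ‖w‖ ^ 2 * ‖y2‖ ≤ r ^ 2 * ‖u‖ := mul_le_mul w2 h4 (norm_nonneg _) (by positivity)
    rw [t2]; linarith
  -- inner products
  set z1 : ℂ := inner ℂ u x1 with hz1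
  set z2 : ℂ := inner ℂ u x2 with hz2
  have b1 : inner ℂ u y1 = (starRingEnd ℂ) z1 := by
    rw [← a1, hz1, inner_conj_symm]
  have b2 : inner ℂ u y2 = (starRingEnd ℂ) z2 := by
    rw [← a2, hz2, inner_conj_symm]
  have b3 : inner ℂ x1 y1 = (starRingEnd ℂ) z2 := by
    rw [← a3, hz2, inner_conj_symm]
  have b4 : inner ℂ u u = ((‖u‖ ^ 2 : ℝ) : ℂ) := by
    rw [inner_self_eq_norm_sq_to_K]; push_cast; rfl
  have k4 : (inner ℂ u (I • (a + a'))).re = 0 := by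
    rw [inner_smul_right, inner_add_right, ha, ha', inner_smul_right, inner_smul_right, inner_add_right, inner_add_right,
      inner_smul_right, inner_smul_right, inner_smul_right, inner_smul_right, b1, b2, ← hz1, ← hz2]
    simp [Complex.mul_re, Complex.mul_im]
    ring
  have k6 : (inner ℂ u c).re = 1 / 4 * ((w ^ 2 * z2).re + ‖w‖ ^ 2 * ‖u‖ ^ 2) := by
    rw [hc, inner_smul_right, inner_add_right, inner_add_right, inner_smul_right, inner_smul_right, inner_smul_right, b2, b4, ← hz2]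
    have e1 : (starRingEnd ℂ) w ^ 2 * (starRingEnd ℂ) z2 = (starRingEnd ℂ) (w ^ 2 * z2) := by
      rw [map_mul, map_pow]
    rw [e1]
    have e2 : (1 / 8 : ℂ) * (w ^ 2 * z2 + (starRingEnd ℂ) (w ^ 2 * z2) + 2 * ((‖w‖ ^ 2 : ℝ) : ℂ) * ((‖u‖ ^ 2 : ℝ) : ℂ)) =
        ((1 / 4 * ((w ^ 2 * z2).re + ‖w‖ ^ 2 * ‖u‖ ^ 2) : ℝ) : ℂ) := by
      rw [Complex.add_conj]
      push_cast
      ring
    rw [e2, Complex.ofReal_re]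
  have k5 : ‖a‖ ^ 2 = 1 / 4 * (‖w‖ ^ 2 * ‖u‖ ^ 2 + 2 * (w ^ 2 * z2).re + ‖w‖ ^ 2 * (‖u‖ ^ 2 - q)) := by
    have t2 : ‖a‖ = 1 / 2 * ‖w • x1 + (starRingEnd ℂ) w • y1‖ := by
      rw [ha, norm_smul]; norm_num
    have t3 : ‖w • x1 + (starRingEnd ℂ) w • y1‖ ^ 2 = ‖w‖ ^ 2 * ‖u‖ ^ 2 + 2 * (w ^ 2 * z2).re + ‖w‖ ^ 2 * (‖u‖ ^ 2 - q) := by
      rw [norm_add_sq (𝕜 := ℂ), norm_smul, norm_smul, cw, h1, inner_smul_left, inner_smul_right, b3, ← h3]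
      have e1 : (starRingEnd ℂ) w * ((starRingEnd ℂ) w * (starRingEnd ℂ) z2) = (starRingEnd ℂ) (w ^ 2 * z2) := by
        rw [map_mul, map_pow]; ring
      rw [e1]
      have e2 : RCLike.re ((starRingEnd ℂ) (w ^ 2 * z2)) = (w ^ 2 * z2).re := by
        rw [RCLike.conj_re]; rfl
      rw [e2]
      ring
    rw [t2, mul_pow, t3]; ring
  -- expansion
  have f1 : ‖u + (I • (a + a') - c)‖ ^ 2 = ‖u‖ ^ 2 + 2 * (inner ℂ u (I • (a + a') - c)).re + ‖I • (a + a') - c‖ ^ 2 :=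
    norm_add_sq (𝕜 := ℂ) u _
  have f2 : (inner ℂ u (I • (a + a') - c)).re = - (inner ℂ u c).re := by
    rw [inner_sub_right, Complex.sub_re, k4]; ring
  have f3 : ‖I • (a + a') - c‖ ^ 2 = ‖a + a'‖ ^ 2 - 2 * (inner ℂ (I • (a + a')) c).re + ‖c‖ ^ 2 := by
    have := norm_sub_sq (𝕜 := ℂ) (I • (a + a')) c
    rw [this, norm_smul, Complex.norm_I, one_mul]
    rfl
  have f4 : ‖a + a'‖ ^ 2 = ‖a‖ ^ 2 + 2 * (inner ℂ a a').re + ‖a'‖ ^ 2 := norm_add_sq (𝕜 := ℂ) a a'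
  have g1 : |(inner ℂ a a').re| ≤ r * ‖u‖ * (r ^ 2 / 2 * ‖u‖) :=
    (Complex.abs_re_le_norm _).trans ((norm_inner_le_norm a a').trans (mul_le_mul k1 k2 (norm_nonneg _) (by positivity)))
  have g2 : |(inner ℂ (I • (a + a')) c).re| ≤ (r * ‖u‖ + r ^ 2 / 2 * ‖u‖) * (r ^ 2 / 2 * ‖u‖) := by
    refine (Complex.abs_re_le_norm _).trans ((norm_inner_le_norm _ c).trans ?_)
    refine mul_le_mul ?_ k3 (norm_nonneg _) (by positivity)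
    rw [norm_smul, Complex.norm_I, one_mul]
    exact (norm_add_le _ _).trans (add_le_add k1 k2)
  have g3 : ‖a'‖ ^ 2 ≤ (r ^ 2 / 2 * ‖u‖) ^ 2 := pow_le_pow_left₀ (norm_nonneg _) k2 2
  have g4 : ‖c‖ ^ 2 ≤ (r ^ 2 / 2 * ‖u‖) ^ 2 := pow_le_pow_left₀ (norm_nonneg _) k3 2
  have g5 := (abs_le.1 g1).2
  have g6 := (abs_le.1 g2).1
  have hr2 : r ≤ 1 := by nlinarith
  have hqu : q ≤ ‖u‖ ^ 2 := by
    have := sq_nonneg ‖y1‖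
    linarith
  have main : ‖u + (I • (a + a') - c)‖ ^ 2 ≤ ‖u‖ ^ 2 - ‖w‖ ^ 2 / 4 * q + (2 * r ^ 3 + r ^ 4) * ‖u‖ ^ 2 := by
    rw [f1, f2, f3, f4, k5, k6]
    nlinarith
  refine main.trans ?_
  have s1 : r ^ 4 ≤ r ^ 3 := by
    have : r ^ 4 = r ^ 3 * r := by ring
    rw [this]
    exact mul_le_of_le_one_right (by positivity) hr2
  have s2 : (2 * r ^ 3 + r ^ 4) * ‖u‖ ^ 2 ≤ 3 * r ^ 3 * ‖u‖ ^ 2 :=
    mul_le_mul_of_nonneg_right (by linarith) (by positivity)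
  have s3 : 8 * r ^ 3 * (‖w‖ ^ 2 / 4 * q) ≤ r ^ 3 * ‖u‖ ^ 2 := by
    have : ‖w‖ ^ 2 * q ≤ 1 / 2 * ‖u‖ ^ 2 := mul_le_mul (w2.trans hr1) hqu hq (by norm_num)
    have h8 : 8 * r ^ 3 * (‖w‖ ^ 2 / 4 * q) = r ^ 3 * (2 * (‖w‖ ^ 2 * q)) := by ring
    rw [h8]
    exact mul_le_mul_of_nonneg_left (by linarith) (by positivity)
  have s4 : 0 ≤ r ^ 3 * ‖u‖ ^ 2 := by positivity
  linarith

end

end Pool.Agent.Run7.h875.UC
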