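import Pool.Agent.Run7.h875.UC.Core

set_option autoImplicit false

/-! Piece ALG of project UC (helper74), second part: the sequences. -/

namespace Pool.Agent.Run7.h875.UC

open Complex Filter Topology

noncomputable section

lemma memFS {u : ℕ → ℂ} (h : FS u) : Memℓp (E := fun _ : ℕ => ℂ) u 2 :=
  (memℓp_zero (E := fun _ : ℕ => ℂ) (f := u) h.2).of_exponent_ge (by simp)

def mk {u : ℕ → ℂ} (h : FS u) : lp (fun _ : ℕ => ℂ) 2 := ⟨u, memFS h⟩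

lemma mk_nn {u : ℕ → ℂ} (h : FS u) : ‖mk h‖ ^ 2 = nn u := by
  have := lp.norm_rpow_eq_tsum (p := 2) (by norm_num) (mk h)
  simp only [ENNReal.toReal_ofNat, Real.rpow_ofNat] at this
  exact this

lemma mk_inner {u g : ℕ → ℂ} (h : FS u) (h' : FS g) : inner ℂ (mk h) (mk h') = ∑' n, inner ℂ (u n) (g n) :=
  lp.inner_eq_tsum _ _

lemma tsum_dvd {M : Type*} [AddCommMonoid M] [TopologicalSpace M] {p : ℕ} (hp : 0 < p) (f : ℕ → M) (hf : ∀ n, ¬ p ∣ n → f n = 0) :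
    ∑' n, f n = ∑' n, f (p * n) := by
  refine (Function.Injective.tsum_eq (g := fun n => p * n) (fun a b h => Nat.eq_of_mul_eq_mul_left hp h) ?_).symm
  intro n hn
  by_contra h
  exact hn (hf n (fun ⟨k, hk⟩ => h ⟨k, hk.symm⟩))

lemma Sh_mul {p : ℕ} (hp : 0 < p) (u : ℕ → ℂ) (n : ℕ) : Sh p u (p * n) = u n := by
  unfold Sh
  rw [if_pos (dvd_mul_right p n), Nat.mul_div_cancel_left n hp]

lemma Sa_Sh {p : ℕ} (hp : 0 < p) (u : ℕ → ℂ) : Sa p (Sh p u) = u := by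
  funext n
  exact Sh_mul hp u n

lemma fsSh {p : ℕ} (_hp : 0 < p) {u : ℕ → ℂ} (h : FS u) : FS (Sh p u) := by
  refine ⟨by simp [Sh, h.1], (h.2.image (fun n => p * n)).subset ?_⟩
  intro n hn
  have hn' : Sh p u n ≠ 0 := hn
  unfold Sh at hn'
  split_ifs at hn' with hd
  · exact ⟨n / p, hn', Nat.mul_div_cancel' hd⟩
  · exact absurd rfl hn'

lemma fsSa {p : ℕ} (hp : 0 < p) {u : ℕ → ℂ} (h : FS u) : FS (Sa p u) := by
  refine ⟨by simp [Sa, h.1], ?_⟩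
  exact h.2.preimage (fun a _ b _ hab => Nat.eq_of_mul_eq_mul_left hp hab)

lemma mk_adj {p : ℕ} (hp : 0 < p) {u g : ℕ → ℂ} (h : FS u) (h' : FS g) :
    inner ℂ (mk (fsSh hp h)) (mk h') = inner ℂ (mk h) (mk (fsSa hp h')) := by
  rw [mk_inner, mk_inner, tsum_dvd hp (fun n => inner ℂ (Sh p u n) (g n))]
  · refine tsum_congr fun n => ?_
    rw [Sh_mul hp]; rfl
  · intro n hn
    simp [Sh, hn]

lemma fsTp {p : ℕ} (hp : 0 < p) (w v : ℂ) {u : ℕ → ℂ} (h : FS u) : FS (Tp p w v u) := by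
  have h1 := fsSh hp h
  have h2 := fsSh hp h1
  have g1 := fsSa hp h
  have g2 := fsSa hp g1
  refine ⟨by simp [Tp, h.1, h1.1, h2.1, g1.1, g2.1], ?_⟩
  refine ((((h.2.union h1.2).union h2.2).union g1.2).union g2.2).subset ?_
  intro n hn
  by_contra hc
  simp only [Set.mem_union, Function.mem_support, not_or, not_not] at hc
  obtain ⟨⟨⟨⟨c1, c2⟩, c3⟩, c4⟩, c5⟩ := hc
  apply hn
  simp [Tp, c1, c2, c3, c4, c5]

lemma summ {u : ℕ → ℂ} (h : FS u) (f : ℕ → ℝ) (hf : ∀ n, u n = 0 → f n = 0) : Summable f := by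
  refine summable_of_hasFiniteSupport (h.2.subset ?_)
  intro n hn
  exact fun h0 => hn (hf n h0)

theorem oneP {p : ℕ} (hp : p.Prime) (w v : ℂ) (hw : ‖w‖ ≤ (p : ℝ) ^ (-(1 / 2) : ℝ)) (hv : ‖v‖ ≤ 1 / (2 * p)) {u : ℕ → ℂ} (h : FS u) :
    nn (Tp p w v u) ≤ (1 + 8 * (p : ℝ) ^ (-(3 / 2) : ℝ)) * ∑' n, (if p ∣ n then (1 : ℝ) else 1 - ‖w‖ ^ 2 / 4) * ‖u n‖ ^ 2 := by
  have hp0 := hp.pos
  have hpr : (0 : ℝ) < p := by exact_mod_cast hp0
  have hp2 : (2 : ℝ) ≤ p := by exact_mod_cast hp.two_le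
  set r : ℝ := (p : ℝ) ^ (-(1 / 2) : ℝ) with hr
  have r2 : r ^ 2 = 1 / p := by
    rw [hr, ← Real.rpow_natCast, ← Real.rpow_mul hpr.le]
    norm_num
    rw [Real.rpow_neg_one]
  have r3 : r ^ 3 = (p : ℝ) ^ (-(3 / 2) : ℝ) := by
    rw [hr, ← Real.rpow_natCast, ← Real.rpow_mul hpr.le]
    norm_num
  have h1 := fsSh hp0 h
  have h2 := fsSh hp0 h1
  have g1 := fsSa hp0 h
  have g2 := fsSa hp0 g1
  set q : ℝ := ∑' n, (if p ∣ n then 0 else ‖u n‖ ^ 2) with hq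
  have q0 : 0 ≤ q := tsum_nonneg (fun n => by split_ifs <;> positivity)
  have sA : Summable (fun n => ‖u n‖ ^ 2) := summ h _ (fun n hn => by simp [hn])
  have sB : Summable (fun n => if p ∣ n then 0 else ‖u n‖ ^ 2) := summ h _ (fun n hn => by simp [hn])
  have sC : Summable (fun n => if p ∣ n then ‖u n‖ ^ 2 else 0) := summ h _ (fun n hn => by simp [hn])
  have nnSh : ∀ {x : ℕ → ℂ} (hx : FS x), ‖mk (fsSh hp0 hx)‖ = ‖mk hx‖ := by
    intro x hx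
    have : ‖mk (fsSh hp0 hx)‖ ^ 2 = ‖mk hx‖ ^ 2 := by
      rw [mk_nn, mk_nn, nn, nn, tsum_dvd hp0 (fun n => ‖Sh p x n‖ ^ 2)]
      · exact tsum_congr fun n => by rw [Sh_mul hp0]
      · intro n hn
        simp [Sh, hn]
    exact (sq_eq_sq₀ (norm_nonneg _) (norm_nonneg _)).1 this
  have nnSa : ∀ {x : ℕ → ℂ} (hx : FS x), ‖mk (fsSa hp0 hx)‖ ^ 2 = ‖mk hx‖ ^ 2 - ∑' n, (if p ∣ n then 0 else ‖x n‖ ^ 2) := by
    intro x hx
    have sB' : Summable (fun n => if p ∣ n then 0 else ‖x n‖ ^ 2) := summ hx _ (fun n hn => by simp [hn])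
    have sC' : Summable (fun n => if p ∣ n then ‖x n‖ ^ 2 else 0) := summ hx _ (fun n hn => by simp [hn])
    rw [mk_nn, mk_nn, nn, nn]
    have e1 : ∑' n, ‖Sa p x n‖ ^ 2 = ∑' n, (if p ∣ n then ‖x n‖ ^ 2 else 0) := by
      rw [tsum_dvd hp0 (fun n => if p ∣ n then ‖x n‖ ^ 2 else 0)]
      · refine tsum_congr fun n => ?_
        rw [if_pos (dvd_mul_right p n)]; rfl
      · intro n hn
        simp [hn]
    have e2 : ∑' n, ‖x n‖ ^ 2 = ∑' n, (if p ∣ n then ‖x n‖ ^ 2 else 0) + ∑' n, (if p ∣ n then 0 else ‖x n‖ ^ 2) := by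
      rw [← sC'.tsum_add sB']
      refine tsum_congr fun n => ?_
      split_ifs <;> simp
    rw [e1, e2]; ring
  have nnSa' : ∀ {x : ℕ → ℂ} (hx : FS x), ‖mk (fsSa hp0 hx)‖ ≤ ‖mk hx‖ := by
    intro x hx
    refine le_of_sq_le_sq ?_ (norm_nonneg _)
    rw [nnSa hx]
    have : 0 ≤ ∑' n, (if p ∣ n then 0 else ‖x n‖ ^ 2) := tsum_nonneg (fun n => by split_ifs <;> positivity)
    linarith
  have key := absT (mk h) (mk h1) (mk h2) (mk g1) (mk g2) w v r q (by positivity) (by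
      rw [r2]; exact one_div_le_one_div_of_le (by norm_num) hp2) hw (by
      rw [r2]; refine hv.trans (le_of_eq ?_); field_simp) (nnSh h) ((nnSh h1).trans (nnSh h)) (nnSa h) q0
      ((nnSa' g1).trans (nnSa' h)) (mk_adj hp0 h h) ((mk_adj hp0 h1 h).trans (mk_adj hp0 h g1)) (mk_adj hp0 h1 h)
  have e3 : mk (fsTp hp0 w v h) = mk h + (I / 2) • (w • mk h1 + (starRingEnd ℂ) w • mk g1) + (I / 2) • (v • mk h2 + (starRingEnd ℂ) v • mk g2) -
      (1 / 8 : ℂ) • (w ^ 2 • mk h2 + (starRingEnd ℂ) w ^ 2 • mk g2 + (2 * ((‖w‖ ^ 2 : ℝ) : ℂ)) • mk h) := by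
    apply Subtype.ext
    funext n
    rfl
  rw [← e3, mk_nn, mk_nn, r3] at key
  refine key.trans (le_of_eq ?_)
  congr 1
  rw [nn, hq, ← tsum_mul_left, ← sA.tsum_sub (sB.mul_left _)]
  refine tsum_congr fun n => ?_
  split_ifs <;> ring

/-! ### several primes -/

def Rm (p : ℕ) (s : ℂ) (u : ℕ → ℂ) (n : ℕ) : ℂ := (if p ∣ n then 1 else s) * u n

lemma fsRm (p : ℕ) (s : ℂ) {u : ℕ → ℂ} (h : FS u) : FS (Rm p s u) := by
  refine ⟨by simp [Rm, h.1], h.2.subset ?_⟩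
  intro n hn h0
  apply hn
  simp [Rm, h0]

lemma Sh_Rm {p q : ℕ} (hp : p.Prime) (hq : q.Prime) (hpq : p ≠ q) (s : ℂ) (u : ℕ → ℂ) : Sh q (Rm p s u) = Rm p s (Sh q u) := by
  funext n
  change (if q ∣ n then (if p ∣ n / q then 1 else s) * u (n / q) else 0) = (if p ∣ n then 1 else s) * (if q ∣ n then u (n / q) else 0)
  by_cases hd : q ∣ n
  · obtain ⟨k, rfl⟩ := hd
    rw [if_pos (dvd_mul_right q k), if_pos (dvd_mul_right q k), Nat.mul_div_cancel_left k hq.pos]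
    have : p ∣ q * k ↔ p ∣ k := by
      constructor
      · intro h
        rcases hp.dvd_mul.1 h with h | h
        · exact absurd ((Nat.prime_dvd_prime_iff_eq hp hq).1 h) hpq
        · exact h
      · intro h; exact h.mul_left q
    simp only [this]
  · rw [if_neg hd, if_neg hd, mul_zero]

lemma Sa_Rm {p q : ℕ} (hp : p.Prime) (hq : q.Prime) (hpq : p ≠ q) (s : ℂ) (u : ℕ → ℂ) : Sa q (Rm p s u) = Rm p s (Sa q u) := by
  funext n
  unfold Sa Rm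
  have : p ∣ q * n ↔ p ∣ n := by
    constructor
    · intro h
      rcases hp.dvd_mul.1 h with h | h
      · exact absurd ((Nat.prime_dvd_prime_iff_eq hp hq).1 h) hpq
      · exact h
    · intro h; exact h.mul_left q
  simp only [this]

lemma Tp_Rm {p q : ℕ} (hp : p.Prime) (hq : q.Prime) (hpq : p ≠ q) (s w v : ℂ) (u : ℕ → ℂ) :
    Tp q w v (Rm p s u) = Rm p s (Tp q w v u) := by
  funext n
  unfold Tp
  rw [Sh_Rm hp hq hpq, Sa_Rm hp hq hpq, Sh_Rm hp hq hpq, Sa_Rm hp hq hpq]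
  unfold Rm
  ring

lemma TL_Rm {p : ℕ} (hp : p.Prime) (s : ℂ) (w v : ℕ → ℂ) : ∀ (L : List ℕ), p ∉ L → (∀ q ∈ L, q.Prime) → ∀ u : ℕ → ℂ,
    TL w v L (Rm p s u) = Rm p s (TL w v L u)
  | [], _, _, u => rfl
  | (q :: L), hL, hq, u => by
      rw [TL, TL, TL_Rm hp s w v L (fun h => hL (List.mem_cons_of_mem _ h)) (fun x hx => hq x (List.mem_cons_of_mem _ hx)) u,
        Tp_Rm hp (hq q (List.mem_cons_self)) (fun h => hL (h ▸ List.mem_cons_self))]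

lemma fsTL (w v : ℕ → ℂ) : ∀ (L : List ℕ), (∀ q ∈ L, q.Prime) → ∀ u : ℕ → ℂ, FS u → FS (TL w v L u)
  | [], _, _, h => h
  | (q :: L), hq, u, h => fsTp (hq q (List.mem_cons_self)).pos _ _ (fsTL w v L (fun x hx => hq x (List.mem_cons_of_mem _ hx)) u h)

theorem alg (w v : ℕ → ℂ) : ∀ (L : List ℕ), L.Nodup →
    (∀ p ∈ L, p.Prime ∧ ‖w p‖ ≤ (p : ℝ) ^ (-(1 / 2) : ℝ) ∧ ‖v p‖ ≤ 1 / (2 * p)) → ∀ u : ℕ → ℂ, FS u →
    nn (TL w v L u) ≤ (∏ p ∈ L.toFinset, (1 + 8 * (p : ℝ) ^ (-(3 / 2) : ℝ))) *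
      ∑' n, (∏ p ∈ L.toFinset, if p ∣ n then (1 : ℝ) else 1 - ‖w p‖ ^ 2 / 4) * ‖u n‖ ^ 2
  | [], _, _, u, _ => by simp [TL, nn]
  | (p :: L), hL, hw, u, h => by
      have hpL : p ∉ L := (List.nodup_cons.1 hL).1
      have hL' : L.Nodup := (List.nodup_cons.1 hL).2
      have hw' : ∀ q ∈ L, q.Prime ∧ ‖w q‖ ≤ (q : ℝ) ^ (-(1 / 2) : ℝ) ∧ ‖v q‖ ≤ 1 / (2 * q) :=
        fun q hq => hw q (List.mem_cons_of_mem _ hq)
      obtain ⟨hp, hwp, hvp⟩ := hw p (List.mem_cons_self)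
      have hpr : (0 : ℝ) < p := by exact_mod_cast hp.pos
      have hp2 : (2 : ℝ) ≤ p := by exact_mod_cast hp.two_le
      have hw1 : ‖w p‖ ≤ 1 := hwp.trans (Real.rpow_le_one_of_one_le_of_nonpos (by linarith) (by norm_num))
      have hc0 : 0 ≤ 1 - ‖w p‖ ^ 2 / 4 := by
        have := pow_le_one₀ (n := 2) (norm_nonneg _) hw1
        linarith
      set s : ℝ := Real.sqrt (1 - ‖w p‖ ^ 2 / 4) with hs
      have s2 : s ^ 2 = 1 - ‖w p‖ ^ 2 / 4 := Real.sq_sqrt hc0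
      have s0 : 0 ≤ s := Real.sqrt_nonneg _
      have hfs := fsTL w v L (fun q hq => (hw' q hq).1) u h
      have A := oneP hp (w p) (v p) hwp hvp hfs
      have e1 : ∀ x : ℕ → ℂ, (fun n => (if p ∣ n then (1 : ℝ) else 1 - ‖w p‖ ^ 2 / 4) * ‖x n‖ ^ 2) = fun n => ‖Rm p (s : ℂ) x n‖ ^ 2 := by
        intro x
        funext n
        unfold Rm
        split_ifs
        · simp
        · rw [norm_mul, mul_pow, Complex.norm_real, Real.norm_of_nonneg s0, s2]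
      have B := alg w v L hL' hw' (Rm p (s : ℂ) u) (fsRm p _ h)
      rw [e1, ← TL_Rm hp (s : ℂ) w v L hpL (fun q hq => (hw' q hq).1) u] at A
      have hpos : 0 ≤ 1 + 8 * (p : ℝ) ^ (-(3 / 2) : ℝ) := by positivity
      have hnot : p ∉ L.toFinset := by rwa [List.mem_toFinset]
      have C := A.trans (mul_le_mul_of_nonneg_left B hpos)
      rw [TL, List.toFinset_cons, Finset.prod_insert hnot, mul_assoc]
      refine C.trans (le_of_eq ?_)
      congr 2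
      refine tsum_congr fun n => ?_
      rw [Finset.prod_insert hnot, ← congrFun (e1 u) n]
      ring

end

end Pool.Agent.Run7.h875.UC
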